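import Mathlib
import Pool.Agent.H32.BddDeg

set_option autoImplicit false

namespace Pool.Agent.Results.MP_5a868e_co.NotPR

/-- `P d`: nonzero polynomials in countably many variables with coefficients in `ℕ`,
zero constant term and degree at most `d` in each variable. -/
def P (d : ℕ) : Set (MvPolynomial ℕ ℕ) :=
  {f | f ≠ 0 ∧ MvPolynomial.coeff 0 f = 0 ∧ ∀ i, MvPolynomial.degreeOf i f ≤ d}

theorem result (d : ℕ) :
    ∃ (r : ℕ) (c : P d → Fin r),
      ¬ ∃ (x y : MvPolynomial ℕ ℕ) (hx : x ∈ P d) (hy : y ∈ P d) (hs : x + y ∈ P d)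
          (hp : x * y ∈ P d),
        c ⟨y, hy⟩ = c ⟨x, hx⟩ ∧ c ⟨x + y, hs⟩ = c ⟨x, hx⟩ ∧ c ⟨x * y, hp⟩ = c ⟨x, hx⟩ := by
  refine ⟨_, fun f => Fintype.equivFin _ (Pool.Agent.H32.BddDeg.col d f.1), ?_⟩
  rintro ⟨x, y, hx, hy, hs, hp, e1, e2, e3⟩
  exact Pool.Agent.H32.BddDeg.main d x y hx.1 hx.2.1 hx.2.2 hp.2.2
    ((Fintype.equivFin _).injective e1) ((Fintype.equivFin _).injective e2)
    ((Fintype.equivFin _).injective e3)

end Pool.Agent.Results.MP_5a868e_co.NotPR
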